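import Pool.Agent.H90.SRC.Targets

set_option autoImplicit false

open Finset Pool.Agent.H66.SLP Pool.Agent.H90.SRC

namespace Pool.Agent.H61.SRC

theorem pf_FTY (hGAP : T_GAP) (hREC : T_REC) (hWRD : T_WRD) (hNUM : T_NUM)
    (hMAIN : Pool.Agent.H66.SLP.T_MAIN) : T_FTY := by
  intro ε hε hε1
  set J : ℕ := ⌈4 / ε⌉₊ with hJ
  have hJ1 : 4 / ε ≤ (J : ℝ) := Nat.le_ceil _
  have hJ2 : (J : ℝ) ≤ 4 / ε + 1 := (Nat.ceil_lt_add_one (by positivity)).le
  choose CM hCM using fun R : ℕ => hMAIN (ε / 2) R (by positivity)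
  set C₀ : ℝ := 1 + ∑ R ∈ range (2 * J + 1), |CM R| with hC0
  have hsum0 : 0 ≤ ∑ R ∈ range (2 * J + 1), |CM R| := sum_nonneg fun R _ => abs_nonneg _
  have hC01 : 1 ≤ C₀ := by rw [hC0]; linarith
  have hCR : ∀ R ≤ 2 * J, CM R ≤ C₀ := by
    intro R hR
    have h1 : |CM R| ≤ ∑ R ∈ range (2 * J + 1), |CM R| :=
      single_le_sum (f := fun R => |CM R|) (fun i _ => abs_nonneg _)
        (mem_range.mpr (by omega))
    have h2 := le_abs_self (CM R)
    rw [hC0]; linarith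
  obtain ⟨C, hC1, hN⟩ := hNUM ε J C₀ hε hε1 hJ1 hJ2 hC01
  refine ⟨C, 12 * J + 2 * J * C₀, hC1, by positivity, ?_⟩
  intro Y _ _ u p θ m hPr hθ hcard h1 h2 hcount
  have hInst : Inst u p 0 (u.length + 1) (2 ^ m) θ := by
    have := hGAP Y u p θ (fun y => by linarith [(hPr y).1]) hcount
    rwa [hcard] at this
  obtain ⟨t, ht2, htθ, hdiv, hn4, hn10, hlast⟩ := hN θ m hθ h1 h2
  have hθ0 : 0 < θ := by linarith
  have hpow : (0 : ℝ) < 2 ^ m := by positivity
  obtain ⟨L, hcov, hlen, hW, hS⟩ := hREC Y u p t hPr ht2 J (2 ^ m) 0 (u.length + 1)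
    ((2 : ℝ) ^ m / θ) θ (Nat.succ_pos _) hdiv Nat.one_le_two_pow (by positivity)
    (by rw [div_mul_cancel₀ _ hθ0.ne']; push_cast; exact le_rfl) htθ hInst
  have hn1 : 1 ≤ 8 * C * θ := by nlinarith
  have hR : CM L.length ≤ C₀ := hCR _ hlen
  have hmem : ∀ r : Fin L.length, L.get r ∈ L := fun r => List.get_mem L r
  have hWnn : ∀ r : Fin L.length, 0 < (L.get r).W := fun r => (hS _ (hmem r)).1
  obtain ⟨l, hpath, hnodup, hovl⟩ := hCM L.length (8 * C * θ) hn1 Y (fun r => L.get r) hWnn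
    (fun r => (hS _ (hmem r)).2.1.trans hn4)
    (fun r => by
      obtain ⟨q, _, hq⟩ := (Nat.dvd_prime_pow Nat.prime_two).1 (hS _ (hmem r)).2.2.1
      exact ⟨q, hq⟩)
    (fun r => by
      have h3 : (L.get r).Q ≤ 2 ^ m := Nat.le_of_dvd (by positivity) (hS _ (hmem r)).2.2.1
      have h4 : ((L.get r).Q : ℝ) ≤ 2 ^ m := by exact_mod_cast h3
      exact h4.trans hn10)
    (fun r => by
      have h3 := hlast (L.get r).W (L.get r).Q (hWnn r).le (hS _ (hmem r)).2.2.2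
      have h4 : 0 ≤ ((L.get r).W + 1) * (8 * C * θ) ^ (ε / 2) := by
        have := hWnn r
        positivity
      calc CM L.length * ((L.get r).W + 1) * (8 * C * θ) ^ (ε / 2)
          = CM L.length * (((L.get r).W + 1) * (8 * C * θ) ^ (ε / 2)) := by ring
        _ ≤ C₀ * (((L.get r).W + 1) * (8 * C * θ) ^ (ε / 2)) :=
            mul_le_mul_of_nonneg_right hR h4
        _ = C₀ * ((L.get r).W + 1) * (8 * C * θ) ^ (ε / 2) := by ring
        _ ≤ (L.get r).Q := h3)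
  obtain ⟨hnot, hcost⟩ := hWRD Y u p L hcov l hpath
  refine ⟨_, hnodup, hnot, hcost.trans ?_⟩
  have h5 : ∑ r, (L.get r).ovl (l r) ≤ 2 * J * C₀ := by
    calc ∑ r, (L.get r).ovl (l r) ≤ ∑ _r : Fin L.length, C₀ :=
          sum_le_sum fun r _ => (hovl r).trans hR
      _ = L.length * C₀ := by simp
      _ ≤ 2 * J * C₀ := by
          have h6 : (L.length : ℝ) ≤ 2 * J := by exact_mod_cast hlen
          exact mul_le_mul_of_nonneg_right h6 (by linarith)
  linarith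

end Pool.Agent.H61.SRC
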